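import Pool.Agent.Y947.GP.Main
import Pool.Agent.Y947.GP.Co
import Pool.Agent.Results.MP_46dca5_an.FiniteGroups

set_option autoImplicit false

open Pool.Agent.Helper881.Gp Pool.Agent.Y947.GP

namespace Pool.Agent.Results.MP_46dca5_an.PairsWithAut

/-- (1) The finite groups `G_P` (the starting result).
(2) If `C(P)` is generated by `Aut(P)` and one function `R`, then, for every isomorphism of `G_P`
onto a finite group `G` which maps `Aut(P)` onto `K`, the subgroup `K` is normal in `G` with a
cyclic quotient, it embeds in `PGL₂(ℂ)`, and `deg P = (deg R) ^ [G : K]`.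
(3) Conversely every such pair `(G, K)` is the pair `(G_P, Aut(P))` for non-special `P` of
arbitrarily large degree whose centraliser is generated by `Aut(P)` and one function. -/
theorem result :
    (∀ (G : Type) [Group G] [Finite G],
      (∃ P : RatFunc ℂ, 2 ≤ deg P ∧ ¬ IsSpecial P ∧ IsGP P G) ↔ ∃ K : Subgroup G, Good G K) ∧
    (∀ (G : Type) [Group G] [Finite G] (K : Subgroup G) (P R : RatFunc ℂ), 2 ≤ deg P →
      GeneratedBy P R → Realizes P G K → Good G K ∧ deg P = deg R ^ K.index) ∧
    (∀ (G : Type) [Group G] [Finite G] (K : Subgroup G), Good G K → ∀ N : ℕ,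
      ∃ P R : RatFunc ℂ, N ≤ deg R ∧ 2 ≤ deg P ∧ ¬ IsSpecial P ∧
        GeneratedBy P R ∧ Realizes P G K) := by
  refine ⟨?_, ?_, ?_⟩
  · intro G _ _
    exact Pool.Agent.Results.MP_46dca5_an.FiniteGroups.result G
  · intro G _ _ K P R hP hgen hreal
    obtain ⟨h1, -, h2⟩ := converse_deg G K P R hP hgen hreal
    exact ⟨h1, h2⟩
  · rintro G _ _ K ⟨hK, hcyc, f, hf⟩ N
    obtain ⟨P, R, h1, -, h2, h3, h4, h5, h6⟩ := realization_full G K hcyc f hf N
    exact ⟨P, R, h1, h2, h4, h5, h6⟩

end Pool.Agent.Results.MP_46dca5_an.PairsWithAut
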